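import Mathlib
import Pool.Agent.H17.CCB

namespace Pool.Agent.Results.MP_ea20df_gt.Weight

open Set Cardinal TopologicalSpace Pool.Agent.H17.CCB

universe u

theorem result (X : Type u) [TopologicalSpace X] [T35Space X] (hX : LocPseudocompact X)
    (hw : ∃ 𝓤 : Set (Set X), IsTopologicalBasis 𝓤 ∧ #𝓤 ≤ 𝔠) :
    ∃ 𝓑 : Set (Set X), IsTopologicalBasis 𝓑 ∧ CCFamily 𝓑 := by
  obtain ⟨𝓤, h1, h2⟩ := hw
  obtain ⟨𝓑, h3, h4, h5⟩ := exists_family 𝓤 h2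
  refine ⟨𝓑, isTopologicalBasis_of_isOpen_of_nhds (fun B hB => (h4 B hB).1) fun x O hx hO => ?_, h3⟩
  obtain ⟨W, hW, hxW, hp⟩ := hX x
  obtain ⟨U, hU, hxU, hUO⟩ := h1.exists_subset_of_mem_open (mem_inter hx hxW) (hO.inter hW)
  obtain ⟨f, hf, V', hV', hxV', hf'⟩ := exists_bump (h1.isOpen hU) hxU
  obtain ⟨V, hV, hxV, hVV⟩ := h1.exists_subset_of_mem_open hxV' hV'
  obtain ⟨B, hB, h6, h7⟩ := h5 V hV U hU ⟨x, hxV⟩ f hf (fun y hy => hf' y (hVV hy))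
    ⟨W, hp, hUO.trans inter_subset_right⟩
  exact ⟨B, hB, h6 hxV, h7.trans (hUO.trans inter_subset_left)⟩

end Pool.Agent.Results.MP_ea20df_gt.Weight
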